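import Pool.Agent.GE63.Ent

set_option autoImplicit false

/-!
# TA63/Low14: moments of the number of descents in a tilt, for every poset (note 3600, step (5))

`|mA - GG| ≤ 55 |s| N`, `MG s ≤ # exp (s GG / 2 + 14 s² N)` for `|s| ≤ 1/96`, and the tails in a tilt.
-/

namespace Pool.TA63

open Pool.HB45 Pool.SC45

theorem adj_leTA {N : ℕ} (Q : Rel (N + 1)) (g : Equiv.Perm (Fin (N + 1))) : (adj Q g : ℝ) ≤ N := by
  unfold adj
  have h := Finset.card_le_univ (adjs Q g)
  rw [Fintype.card_fin] at h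
  exact_mod_cast h

theorem GG_leTA {N : ℕ} {Q : Rel (N + 1)} {lab : Fin (N + 1) → ℕ} (hn : Nat' Q lab) :
    NL25.GG Q ≤ N := by
  have hc := NL25.card_pos hn
  unfold NL25.GG
  rw [div_le_iff₀ hc]
  calc (∑ g ∈ LE Q, (adj Q g : ℝ)) ≤ ∑ g ∈ LE Q, (N : ℝ) :=
        Finset.sum_le_sum fun g _ => adj_leTA Q g
    _ = N * (LE Q).card := by rw [Finset.sum_const, nsmul_eq_mul, mul_comm]

theorem mA_leTA {N : ℕ} {Q : Rel (N + 1)} {lab : Fin (N + 1) → ℕ} (hn : Nat' Q lab) (s : ℝ) :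
    NL25.mA Q lab s ≤ N := by
  have hM := NL25.MG_pos hn s
  unfold NL25.mA
  rw [div_le_iff₀ hM]
  unfold NL25.MG
  rw [Finset.mul_sum]
  exact Finset.sum_le_sum fun g _ =>
    mul_le_mul_of_nonneg_right (adj_leTA Q g) (Real.exp_pos _).le

/-- the real inequality behind `mean14` -/
theorem mean14_real (N s G M X : ℝ) (hN : 0 ≤ N) (hG : G ≤ N) (hM : M ≤ N)
    (hs : |s| ≤ 1 / 96) (hs0 : s ≠ 0) (h1 : |X - M| ≤ |s| * N)
    (hup : ∀ q : ℝ, 0 < q → q ≤ 1 / 4 → M - G ≤ 2 * (s * (X - G) / 2) / q + 6 * q * G)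
    (hlo : ∀ q : ℝ, 0 < q → q ≤ 1 / 4 → G - M ≤ (s * (X - G) / 2) / q + 4 * q * M) :
    |M - G| ≤ 55 * |s| * N := by
  have ht : 0 < |s| := abs_pos.2 hs0
  have hq : 0 < 8 * |s| := by linarith
  have hq4 : 8 * |s| ≤ 1 / 4 := by linarith
  have hup' := hup _ hq hq4
  have hlo' := hlo _ hq hq4
  have ha : 0 ≤ |M - G| := abs_nonneg _
  have hH : s * (X - G) ≤ |s| * (|s| * N + |M - G|) := by
    have h2 : |X - G| ≤ |s| * N + |M - G| := by
      have h3 : X - G = (X - M) + (M - G) := by ring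
      rw [h3]
      exact (abs_add_le _ _).trans (by linarith)
    have h4 : s * (X - G) ≤ |s| * |X - G| := by
      rw [← abs_mul]
      exact le_abs_self _
    exact h4.trans (mul_le_mul_of_nonneg_left h2 ht.le)
  have e1 : 2 * (s * (X - G) / 2) / (8 * |s|) ≤ (|s| * N + |M - G|) / 8 := by
    rw [div_le_iff₀ hq]
    have : (|s| * N + |M - G|) / 8 * (8 * |s|) = |s| * (|s| * N + |M - G|) := by ring
    rw [this]
    linarith
  have e2 : (s * (X - G) / 2) / (8 * |s|) ≤ (|s| * N + |M - G|) / 16 := by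
    rw [div_le_iff₀ hq]
    have : (|s| * N + |M - G|) / 16 * (8 * |s|) = |s| * (|s| * N + |M - G|) / 2 := by ring
    rw [this]
    linarith
  have e3 : |s| * G ≤ |s| * N := mul_le_mul_of_nonneg_left hG ht.le
  have e4 : |s| * M ≤ |s| * N := mul_le_mul_of_nonneg_left hM ht.le
  have e5 : 6 * (8 * |s|) * G = 48 * (|s| * G) := by ring
  have e6 : 4 * (8 * |s|) * M = 32 * (|s| * M) := by ring
  rw [e5] at hup'
  rw [e6] at hlo'
  have hsN : 0 ≤ |s| * N := by positivity
  have hgoal : |M - G| ≤ 55 * (|s| * N) := by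
    rcases le_total 0 (M - G) with hc | hc
    · rw [abs_of_nonneg hc] at *
      linarith
    · rw [abs_of_nonpos hc] at *
      linarith
  calc |M - G| ≤ 55 * (|s| * N) := hgoal
    _ = 55 * |s| * N := by ring

theorem mean14 {N : ℕ} {Q : Rel (N + 1)} {lab : Fin (N + 1) → ℕ} (hn : Nat' Q lab) (s : ℝ)
    (hs : |s| ≤ 1 / 96) : |NL25.mA Q lab s - NL25.GG Q| ≤ 55 * |s| * N := by
  by_cases h0 : s = 0
  · subst h0
    rw [GE63.mA_zeroS]
    simp
  · exact mean14_real N s (NL25.GG Q) (NL25.mA Q lab s) (NL25.mX Q lab s) (Nat.cast_nonneg _)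
      (GG_leTA hn) (mA_leTA hn s) hs h0 (GE63.mX_mA_le hn s (by linarith))
      (fun q h1 h2 => GE63.mA_up hn s q h1 h2) (fun q h1 h2 => GE63.mA_lo hn s q hs h1 h2)

theorem mX14 {N : ℕ} {Q : Rel (N + 1)} {lab : Fin (N + 1) → ℕ} (hn : Nat' Q lab) (s : ℝ)
    (hs : |s| ≤ 1 / 96) : |NL25.mX Q lab s - NL25.GG Q| ≤ 56 * |s| * N := by
  have h1 := GE63.mX_mA_le hn s (by linarith)
  have h2 := mean14 hn s hs
  have h3 : NL25.mX Q lab s - NL25.GG Q =
    (NL25.mX Q lab s - NL25.mA Q lab s) + (NL25.mA Q lab s - NL25.GG Q) := by ring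
  rw [h3]
  exact (abs_add_le _ _).trans (by linarith)

theorem hasDeriv14 {N : ℕ} {Q : Rel (N + 1)} {lab : Fin (N + 1) → ℕ} (hn : Nat' Q lab) (u : ℝ) :
    HasDerivAt (fun u => Real.log (NL25.MG Q lab u / (LE Q).card) - u * (NL25.GG Q / 2) -
      14 * N * u ^ 2) (NL25.mX Q lab u / 2 - NL25.GG Q / 2 - 28 * N * u) u := by
  have h1 := NL25.hasDerivAt_log' hn u
  have h2 : HasDerivAt (fun u : ℝ => u * (NL25.GG Q / 2)) (NL25.GG Q / 2) u := by
    have h3 := (hasDerivAt_id u).mul_const (NL25.GG Q / 2)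
    simpa only [id_eq, one_mul] using h3
  have h4 : HasDerivAt (fun u : ℝ => 14 * (N : ℝ) * u ^ 2) (28 * N * u) u := by
    have h5 := ((hasDerivAt_id u).pow 2).const_mul (14 * (N : ℝ))
    have e : 14 * (N : ℝ) * ((2 : ℕ) * id u ^ (2 - 1) * 1) = 28 * N * u := by
      simp only [id_eq]
      push_cast
      ring
    rw [e] at h5
    exact h5
  exact (h1.sub h2).sub h4

theorem logMG14 {N : ℕ} {Q : Rel (N + 1)} {lab : Fin (N + 1) → ℕ} (hn : Nat' Q lab) (s : ℝ)
    (hs : |s| ≤ 1 / 96) :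
    NL25.MG Q lab s ≤ (LE Q).card * Real.exp (s * NL25.GG Q / 2 + 14 * s ^ 2 * N) := by
  have hc := NL25.card_pos hn
  have hM := NL25.MG_pos hn s
  have hN : (0 : ℝ) ≤ N := Nat.cast_nonneg _
  set f : ℝ → ℝ := fun u => Real.log (NL25.MG Q lab u / (LE Q).card) - u * (NL25.GG Q / 2) -
      14 * N * u ^ 2 with hf
  have hder : ∀ u, HasDerivAt f (NL25.mX Q lab u / 2 - NL25.GG Q / 2 - 28 * N * u) u :=
    fun u => hasDeriv14 hn u
  have hcont : Continuous f := continuous_iff_continuousAt.2 fun u => (hder u).continuousAt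
  have hdiff : Differentiable ℝ f := fun u => (hder u).differentiableAt
  have hf0 : f 0 = 0 := by
    simp only [hf]
    rw [GE63.MG_zeroS, div_self hc.ne', Real.log_one]
    ring
  have hb : ∀ u, |u| ≤ 1 / 96 → |(NL25.mX Q lab u / 2 - NL25.GG Q / 2)| ≤ 28 * N * |u| := by
    intro u hu
    have h3 := mX14 hn u hu
    have h9 : NL25.mX Q lab u / 2 - NL25.GG Q / 2 = (NL25.mX Q lab u - NL25.GG Q) / 2 := by ring
    rw [h9, abs_div, abs_of_pos (two_pos : (0 : ℝ) < 2)]
    linarith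
  have hfs : f s ≤ 0 := by
    rcases le_total 0 s with h0 | h0
    · have hanti : AntitoneOn f (Set.Icc 0 s) := by
        refine antitoneOn_of_deriv_nonpos (convex_Icc _ _) hcont.continuousOn
          hdiff.differentiableOn fun u hu => ?_
        rw [interior_Icc] at hu
        have hu1 : |u| ≤ 1 / 96 := by
          rw [abs_of_nonneg h0] at hs
          rw [abs_of_pos hu.1]
          linarith [hu.2]
        rw [(hder u).deriv]
        have h1 := (abs_le.1 (hb u hu1)).2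
        rw [abs_of_pos hu.1] at h1
        linarith
      have := hanti (Set.left_mem_Icc.2 h0) (Set.right_mem_Icc.2 h0) h0
      linarith
    · have hmono : MonotoneOn f (Set.Icc s 0) := by
        refine monotoneOn_of_deriv_nonneg (convex_Icc _ _) hcont.continuousOn
          hdiff.differentiableOn fun u hu => ?_
        rw [interior_Icc] at hu
        have hu1 : |u| ≤ 1 / 96 := by
          rw [abs_of_nonpos h0] at hs
          rw [abs_of_neg hu.2]
          linarith [hu.1]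
        rw [(hder u).deriv]
        have h1 := (abs_le.1 (hb u hu1)).1
        rw [abs_of_neg hu.2] at h1
        linarith
      have := hmono (Set.left_mem_Icc.2 h0) (Set.right_mem_Icc.2 h0) h0
      linarith
  have h11 : Real.log (NL25.MG Q lab s / (LE Q).card) ≤ s * NL25.GG Q / 2 + 14 * s ^ 2 * N := by
    simp only [hf] at hfs
    linarith
  have h12 : NL25.MG Q lab s / (LE Q).card ≤
      Real.exp (s * NL25.GG Q / 2 + 14 * s ^ 2 * N) := by
    rw [← Real.log_le_iff_le_exp (div_pos hM hc)]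
    exact h11
  rw [div_le_iff₀ hc] at h12
  linarith

open Classical in
/-- lower tail of `des` (upper tail of `X`) in the tilt `s`, comparison with the tilt `s + l` -/
theorem tailL {N : ℕ} {Q : Rel (N + 1)} {lab : Fin (N + 1) → ℕ} (hn : Nat' Q lab) (s l D : ℝ)
    (hl : 0 ≤ l) (hsl : |s + l| ≤ 1 / 96) :
    ∑ g ∈ (LE Q).filter (fun g => NL25.GG Q + 2 * D ≤ NL25.Xf lab g),
      Real.exp (s * NL25.Xf lab g / 2) ≤
      NL25.MG Q lab s * Real.exp (14 * (s + l) ^ 2 * N - l * D) := by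
  have h1 : ∑ g ∈ (LE Q).filter (fun g => NL25.GG Q + 2 * D ≤ NL25.Xf lab g),
      Real.exp (s * NL25.Xf lab g / 2) ≤
      ∑ g ∈ LE Q, Real.exp ((s + l) * NL25.Xf lab g / 2) *
        Real.exp (-(l * (NL25.GG Q + 2 * D) / 2)) := by
    refine (Finset.sum_le_sum fun g hg => ?_).trans
      (Finset.sum_le_sum_of_subset_of_nonneg (Finset.filter_subset _ _)
        fun g _ _ => by positivity)
    rw [← Real.exp_add]
    refine Real.exp_le_exp.2 ?_
    have h2 := (Finset.mem_filter.1 hg).2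
    have h3 := mul_le_mul_of_nonneg_left h2 hl
    linarith
  refine h1.trans ?_
  rw [← Finset.sum_mul]
  change NL25.MG Q lab (s + l) * _ ≤ _
  have h4 := logMG14 hn (s + l) hsl
  have h5 := NL25.jensen hn s
  calc NL25.MG Q lab (s + l) * Real.exp (-(l * (NL25.GG Q + 2 * D) / 2))
      ≤ ((LE Q).card * Real.exp ((s + l) * NL25.GG Q / 2 + 14 * (s + l) ^ 2 * N)) *
        Real.exp (-(l * (NL25.GG Q + 2 * D) / 2)) :=
        mul_le_mul_of_nonneg_right h4 (Real.exp_pos _).le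
    _ = ((LE Q).card * Real.exp (s * NL25.GG Q / 2)) *
        Real.exp (14 * (s + l) ^ 2 * N - l * D) := by
        rw [mul_assoc ((LE Q).card : ℝ), mul_assoc ((LE Q).card : ℝ), ← Real.exp_add,
          ← Real.exp_add]
        congr 2
        ring
    _ ≤ _ := mul_le_mul_of_nonneg_right h5 (Real.exp_pos _).le

open Classical in
/-- upper tail of `des` (lower tail of `X`) in the tilt `s`, comparison with the tilt `s - l` -/
theorem tailR {N : ℕ} {Q : Rel (N + 1)} {lab : Fin (N + 1) → ℕ} (hn : Nat' Q lab) (s l D : ℝ)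
    (hl : 0 ≤ l) (hsl : |s - l| ≤ 1 / 96) :
    ∑ g ∈ (LE Q).filter (fun g => NL25.Xf lab g ≤ NL25.GG Q - 2 * D),
      Real.exp (s * NL25.Xf lab g / 2) ≤
      NL25.MG Q lab s * Real.exp (14 * (s - l) ^ 2 * N - l * D) := by
  have h1 : ∑ g ∈ (LE Q).filter (fun g => NL25.Xf lab g ≤ NL25.GG Q - 2 * D),
      Real.exp (s * NL25.Xf lab g / 2) ≤
      ∑ g ∈ LE Q, Real.exp ((s - l) * NL25.Xf lab g / 2) *
        Real.exp (l * (NL25.GG Q - 2 * D) / 2) := by
    refine (Finset.sum_le_sum fun g hg => ?_).trans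
      (Finset.sum_le_sum_of_subset_of_nonneg (Finset.filter_subset _ _)
        fun g _ _ => by positivity)
    rw [← Real.exp_add]
    refine Real.exp_le_exp.2 ?_
    have h2 := (Finset.mem_filter.1 hg).2
    have h3 := mul_le_mul_of_nonneg_left h2 hl
    linarith
  refine h1.trans ?_
  rw [← Finset.sum_mul]
  change NL25.MG Q lab (s - l) * _ ≤ _
  have h4 := logMG14 hn (s - l) hsl
  have h5 := NL25.jensen hn s
  calc NL25.MG Q lab (s - l) * Real.exp (l * (NL25.GG Q - 2 * D) / 2)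
      ≤ ((LE Q).card * Real.exp ((s - l) * NL25.GG Q / 2 + 14 * (s - l) ^ 2 * N)) *
        Real.exp (l * (NL25.GG Q - 2 * D) / 2) :=
        mul_le_mul_of_nonneg_right h4 (Real.exp_pos _).le
    _ = ((LE Q).card * Real.exp (s * NL25.GG Q / 2)) *
        Real.exp (14 * (s - l) ^ 2 * N - l * D) := by
        rw [mul_assoc ((LE Q).card : ℝ), mul_assoc ((LE Q).card : ℝ), ← Real.exp_add,
          ← Real.exp_add]
        congr 2
        ring
    _ ≤ _ := mul_le_mul_of_nonneg_right h5 (Real.exp_pos _).le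

/-- the exponent with `u = D/(60 N)` -/
theorem expo14 {N D s : ℝ} (hN : 0 < N) (hD : 0 ≤ D) (hs : s ≤ D / (120 * N)) :
    14 * (D / (60 * N)) ^ 2 * N - (D / (60 * N) - s) * D ≤ -(D ^ 2 / (240 * N)) := by
  have h1 : s * D ≤ D / (120 * N) * D := mul_le_mul_of_nonneg_right hs hD
  have h2 : 14 * (D / (60 * N)) ^ 2 * N - (D / (60 * N)) * D + D / (120 * N) * D =
      -(D ^ 2 / (225 * N)) := by
    field_simp
    ring
  have h3 : D ^ 2 / (240 * N) ≤ D ^ 2 / (225 * N) := by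
    apply div_le_div_of_nonneg_left (sq_nonneg _) (by linarith) (by linarith)
  nlinarith

open Classical in
theorem tailL240 {N : ℕ} {Q : Rel (N + 1)} {lab : Fin (N + 1) → ℕ} (hn : Nat' Q lab) (s D : ℝ)
    (hN : 1 ≤ N) (hD : 0 ≤ D) (hDN : D ≤ 5 / 8 * N) (hs : s ≤ D / (120 * N)) :
    ∑ g ∈ (LE Q).filter (fun g => NL25.GG Q + 2 * D ≤ NL25.Xf lab g),
      Real.exp (s * NL25.Xf lab g / 2) ≤ NL25.MG Q lab s * Real.exp (-(D ^ 2 / (240 * N))) := by
  have hN' : (0 : ℝ) < N := by exact_mod_cast hN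
  have hu : D / (60 * N) ≤ 1 / 96 := by
    rw [div_le_iff₀ (by linarith)]
    linarith
  have hu0 : 0 ≤ D / (60 * N) := by positivity
  have hl : 0 ≤ D / (60 * N) - s := by
    have : D / (120 * N) ≤ D / (60 * N) :=
      div_le_div_of_nonneg_left hD (by linarith) (by linarith)
    linarith
  have e : s + (D / (60 * N) - s) = D / (60 * N) := by ring
  have h := tailL hn s (D / (60 * N) - s) D hl (by rw [e, abs_of_nonneg hu0]; exact hu)
  rw [e] at h
  exact h.trans (mul_le_mul_of_nonneg_left (Real.exp_le_exp.2 (expo14 hN' hD hs))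
    (NL25.MG_pos hn s).le)

open Classical in
theorem tailR240 {N : ℕ} {Q : Rel (N + 1)} {lab : Fin (N + 1) → ℕ} (hn : Nat' Q lab) (s D : ℝ)
    (hN : 1 ≤ N) (hD : 0 ≤ D) (hDN : D ≤ 5 / 8 * N) (hs : -s ≤ D / (120 * N)) :
    ∑ g ∈ (LE Q).filter (fun g => NL25.Xf lab g ≤ NL25.GG Q - 2 * D),
      Real.exp (s * NL25.Xf lab g / 2) ≤ NL25.MG Q lab s * Real.exp (-(D ^ 2 / (240 * N))) := by
  have hN' : (0 : ℝ) < N := by exact_mod_cast hN
  have hu : D / (60 * N) ≤ 1 / 96 := by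
    rw [div_le_iff₀ (by linarith)]
    linarith
  have hu0 : 0 ≤ D / (60 * N) := by positivity
  have hl : 0 ≤ D / (60 * N) - -s := by
    have : D / (120 * N) ≤ D / (60 * N) :=
      div_le_div_of_nonneg_left hD (by linarith) (by linarith)
    linarith
  have e : s - (D / (60 * N) - -s) = -(D / (60 * N)) := by ring
  have h := tailR hn s (D / (60 * N) - -s) D hl
    (by rw [e, abs_neg, abs_of_nonneg hu0]; exact hu)
  rw [e, neg_sq] at h
  exact h.trans (mul_le_mul_of_nonneg_left (Real.exp_le_exp.2 (expo14 hN' hD hs))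
    (NL25.MG_pos hn s).le)

end Pool.TA63
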