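import Pool.Agent.TA43.Seq
import Pool.Agent.TA63.Low14

set_option autoImplicit false

/-!
# TA63/Low2: a small tilt has less than half of its mass far below the mean level (for TA43/Low14)
-/

namespace Pool.TA63

open Pool.HB45 Pool.SC45 Pool.TA43

theorem exp169 {N D : ℝ} (hN : 0 < N) (hD : 13 * Real.sqrt N ≤ D) :
    Real.exp (-(D ^ 2 / (240 * N))) < 1 / 2 := by
  have h1 : 169 * N ≤ D ^ 2 := by
    have h2 : (13 * Real.sqrt N) ^ 2 ≤ D ^ 2 := pow_le_pow_left₀ (by positivity) hD 2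
    rw [mul_pow, Real.sq_sqrt hN.le] at h2
    linarith
  have h3 : 169 / 240 ≤ D ^ 2 / (240 * N) := by
    rw [le_div_iff₀ (by linarith)]
    linarith
  have h4 : Real.log 2 < 169 / 240 := by
    have := Real.log_two_lt_d9
    linarith
  have h5 : Real.exp (-(D ^ 2 / (240 * N))) < Real.exp (-Real.log 2) :=
    Real.exp_lt_exp.2 (by linarith)
  have h6 : Real.exp (-Real.log 2) = 1 / 2 := by
    rw [Real.exp_neg, Real.exp_log two_pos, one_div]
  rw [h6] at h5
  exact h5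

/-- a part of a sum over the levels as a sum over the words -/
theorem VS_of_sum {N : ℕ} {Q : Rel (N + 1)} {f : Equiv.Perm (Fin (N + 1)) → ℕ} {v : ℕ → ℝ}
    (h : ∀ F : ℕ → ℝ, ∑ i ∈ Finset.range (N + 1), v i * F i = ∑ g ∈ LE Q, F (f g)) (s : ℝ)
    {j : ℕ} (hj : j ≤ N) : VS v s (Finset.range (j + 1)) =
      ∑ g ∈ LE Q, if f g ≤ j then Real.exp (-(s * (f g : ℕ))) else 0 := by
  rw [← h (fun i => if i ≤ j then Real.exp (-(s * i)) else 0)]
  unfold VS
  rw [← Finset.sum_subset (Finset.range_mono (Nat.succ_le_succ hj) :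
    Finset.range (j + 1) ⊆ Finset.range (N + 1))]
  · refine Finset.sum_congr rfl fun i hi => ?_
    rw [if_pos (Nat.lt_succ_iff.1 (Finset.mem_range.1 hi))]
  · intro i _ hi
    rw [if_neg (fun hle => hi (Finset.mem_range.2 (Nat.lt_succ_of_le hle))), mul_zero]

theorem VV_of_sum {N : ℕ} {Q : Rel (N + 1)} {f : Equiv.Perm (Fin (N + 1)) → ℕ} {v : ℕ → ℝ}
    (h : ∀ F : ℕ → ℝ, ∑ i ∈ Finset.range (N + 1), v i * F i = ∑ g ∈ LE Q, F (f g)) (s : ℝ) :
    VV N v s = ∑ g ∈ LE Q, Real.exp (-(s * (f g : ℕ))) := by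
  rw [← h (fun i => Real.exp (-(s * i)))]
  rfl

theorem low_leftTA {N : ℕ} (hN : 1 ≤ N) {Q : Rel (N + 1)} {lab : Fin (N + 1) → ℕ} (hn : Nat' Q lab)
    (D s : ℝ) (hD0 : 13 * Real.sqrt N ≤ D) (hD1 : D ≤ 5 / 8 * N)
    (hs1 : s ≤ D / (120 * N)) (j : ℕ) (hj : (j : ℝ) ≤ (N - NL25.GG Q) / 2 - D) :
    VS (vL Q lab) s (Finset.range (j + 1)) < VV N (vL Q lab) s / 2 := by
  classical
  have hN' : (0 : ℝ) < N := by exact_mod_cast hN
  have hD : 0 ≤ D := (by positivity : (0 : ℝ) ≤ 13 * Real.sqrt N).trans hD0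
  have hG := NL25.GG_nonneg Q
  have hjN : j ≤ N := by
    have : (j : ℝ) ≤ N := by linarith
    exact_mod_cast this
  have hM := NL25.MG_pos hn s
  have e1 : ∀ g, Real.exp (-(s * (des lab g : ℕ))) =
      Real.exp (-(s * N / 2)) * Real.exp (s * NL25.Xf lab g / 2) := by
    intro g
    rw [← Real.exp_add]
    unfold NL25.Xf
    congr 1
    ring
  have hVV : VV N (vL Q lab) s = Real.exp (-(s * N / 2)) * NL25.MG Q lab s := by
    rw [VV_of_sum (sum_vL Q lab) s]
    unfold NL25.MG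
    rw [Finset.mul_sum]
    exact Finset.sum_congr rfl fun g _ => e1 g
  have hVS : VS (vL Q lab) s (Finset.range (j + 1)) ≤ Real.exp (-(s * N / 2)) *
      ∑ g ∈ (LE Q).filter (fun g => NL25.GG Q + 2 * D ≤ NL25.Xf lab g),
        Real.exp (s * NL25.Xf lab g / 2) := by
    rw [VS_of_sum (sum_vL Q lab) s hjN, Finset.mul_sum, Finset.sum_filter]
    refine Finset.sum_le_sum fun g _ => ?_
    by_cases h : des lab g ≤ j
    · have h2 : (des lab g : ℝ) ≤ j := by exact_mod_cast h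
      rw [if_pos h, if_pos (by unfold NL25.Xf; linarith), e1]
    · rw [if_neg h]
      split_ifs
      · positivity
      · exact le_rfl
  have h3 := tailL240 hn s D hN hD hD1 hs1
  have h4 := exp169 hN' hD0
  have h5 : 0 < Real.exp (-(s * N / 2)) := Real.exp_pos _
  calc VS (vL Q lab) s (Finset.range (j + 1)) ≤ _ := hVS
    _ ≤ Real.exp (-(s * N / 2)) * (NL25.MG Q lab s * Real.exp (-(D ^ 2 / (240 * N)))) :=
        mul_le_mul_of_nonneg_left h3 h5.le
    _ < Real.exp (-(s * N / 2)) * (NL25.MG Q lab s * (1 / 2)) :=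
        mul_lt_mul_of_pos_left (mul_lt_mul_of_pos_left h4 hM) h5
    _ = VV N (vL Q lab) s / 2 := by rw [hVV]; ring

theorem low_rightTA {N : ℕ} (hN : 1 ≤ N) {Q : Rel (N + 1)} {lab : Fin (N + 1) → ℕ} (hn : Nat' Q lab)
    (D s : ℝ) (hD0 : 13 * Real.sqrt N ≤ D) (hD1 : D ≤ 5 / 8 * N)
    (hs1 : s ≤ D / (120 * N)) (k : ℕ) (hkN : k ≤ N) (hk : (k : ℝ) ≤ (N + NL25.GG Q) / 2 - D) :
    VS (vR Q lab) s (Finset.range (k + 1)) < VV N (vR Q lab) s / 2 := by
  classical
  have hN' : (0 : ℝ) < N := by exact_mod_cast hN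
  have hD : 0 ≤ D := (by positivity : (0 : ℝ) ≤ 13 * Real.sqrt N).trans hD0
  have hM := NL25.MG_pos hn (-s)
  have e0 : ∀ g, ((N - des lab g : ℕ) : ℝ) = N - des lab g := by
    intro g
    rw [Nat.cast_sub (SC25.om_des_le lab g)]
  have e1 : ∀ g, Real.exp (-(s * ((N - des lab g : ℕ) : ℝ))) =
      Real.exp (-(s * N / 2)) * Real.exp (-s * NL25.Xf lab g / 2) := by
    intro g
    rw [e0, ← Real.exp_add]
    unfold NL25.Xf
    congr 1
    ring
  have hVV : VV N (vR Q lab) s = Real.exp (-(s * N / 2)) * NL25.MG Q lab (-s) := by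
    rw [VV_of_sum (sum_vR Q lab) s]
    unfold NL25.MG
    rw [Finset.mul_sum]
    exact Finset.sum_congr rfl fun g _ => e1 g
  have hVS : VS (vR Q lab) s (Finset.range (k + 1)) ≤ Real.exp (-(s * N / 2)) *
      ∑ g ∈ (LE Q).filter (fun g => NL25.Xf lab g ≤ NL25.GG Q - 2 * D),
        Real.exp (-s * NL25.Xf lab g / 2) := by
    rw [VS_of_sum (sum_vR Q lab) s hkN, Finset.mul_sum, Finset.sum_filter]
    refine Finset.sum_le_sum fun g _ => ?_
    by_cases h : N - des lab g ≤ k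
    · have h2 : ((N - des lab g : ℕ) : ℝ) ≤ k := by exact_mod_cast h
      rw [e0] at h2
      rw [if_pos h, if_pos (by unfold NL25.Xf; linarith), e1]
    · rw [if_neg h]
      split_ifs
      · positivity
      · exact le_rfl
  have h3 := tailR240 hn (-s) D hN hD hD1 (by rw [neg_neg]; exact hs1)
  have h4 := exp169 hN' hD0
  have h5 : 0 < Real.exp (-(s * N / 2)) := Real.exp_pos _
  calc VS (vR Q lab) s (Finset.range (k + 1)) ≤ _ := hVS
    _ ≤ Real.exp (-(s * N / 2)) * (NL25.MG Q lab (-s) * Real.exp (-(D ^ 2 / (240 * N)))) :=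
        mul_le_mul_of_nonneg_left h3 h5.le
    _ < Real.exp (-(s * N / 2)) * (NL25.MG Q lab (-s) * (1 / 2)) :=
        mul_lt_mul_of_pos_left (mul_lt_mul_of_pos_left h4 hM) h5
    _ = VV N (vR Q lab) s / 2 := by rw [hVV]; ring

end Pool.TA63
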